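import Pool.Agent.H.MP_5cf697_lc.A
import Pool.Agent.H.MP_5cf697_lc.B

set_option autoImplicit false

namespace Pool.Agent.Results.MP_5cf697_lc.No

open FirstOrder FirstOrder.Language Function
open scoped commutatorElement

/-- Function symbols of the language of groups. -/
inductive GF : ℕ → Type
  | one : GF 0
  | inv : GF 1
  | mul : GF 2

/-- Function symbols of the language of arithmetic. -/
inductive NF : ℕ → Type
  | zero : NF 0
  | one : NF 0
  | add : NF 2
  | mul : NF 2

def LG : FirstOrder.Language := ⟨GF, fun _ => Empty⟩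
def LN : FirstOrder.Language := ⟨NF, fun _ => Empty⟩

instance (G : Type) [Group G] : LG.Structure G where
  funMap f x := match f, x with
    | .one, _ => 1
    | .inv, x => (x 0)⁻¹
    | .mul, x => x 0 * x 1
  RelMap r := r.elim

instance : LN.Structure ℕ where
  funMap f x := match f, x with
    | .zero, _ => 0
    | .one, _ => 1
    | .add, x => x 0 + x 1
    | .mul, x => x 0 * x 1
  RelMap r := r.elim

/-- First-order definable in `A` with parameters. -/
def Df (L : FirstOrder.Language.{0, 0}) (A : Type) [L.Structure A] {ι : Type}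
    (P : (ι → A) → Prop) : Prop := (Set.univ : Set A).Definable L {v | P v}

/-- `f : D → B` is (the coordinate map of) an interpretation of `B` in `A`. -/
def Interp (L L' : FirstOrder.Language.{0, 0}) (A B : Type) [L.Structure A] [L'.Structure B]
    {n : ℕ} (D : (Fin n → A) → Prop) (f : (Fin n → A) → B) : Prop :=
  Df L A D ∧ (∀ b, ∃ x, D x ∧ f x = b) ∧
  Df L A (fun p : Fin 2 × Fin n → A => (∀ i, D (curry p i)) ∧ f (curry p 0) = f (curry p 1)) ∧
  (∀ k (F : L'.Functions k), Df L A fun p : Option (Fin k) × Fin n → A => (∀ i, D (curry p i)) ∧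
    Structure.funMap F (fun i => f (curry p (some i))) = f (curry p none)) ∧
  ∀ k (r : L'.Relations k), Df L A fun p : Fin k × Fin n → A => (∀ i, D (curry p i)) ∧
    Structure.RelMap r fun i => f (curry p i)

/-- The composite coordinate map `g ∘ f` onto `A` is definable in `A`. -/
def Comp (L : FirstOrder.Language.{0, 0}) (A : Type) [L.Structure A] {B : Type} {n m : ℕ}
    (D : (Fin n → A) → Prop) (f : (Fin n → A) → B) (E : (Fin m → B) → Prop)
    (g : (Fin m → B) → A) : Prop :=
  Df L A fun p : Option (Fin m × Fin n) → A => (∀ i, D fun j => p (some (i, j))) ∧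
    E (fun i => f fun j => p (some (i, j))) ∧ g (fun i => f fun j => p (some (i, j))) = p none

def BiInt (L L' : FirstOrder.Language.{0, 0}) (A B : Type) [L.Structure A] [L'.Structure B] :
    Prop :=
  ∃ (n m : ℕ) (D : (Fin n → A) → Prop) (f : (Fin n → A) → B) (E : (Fin m → B) → Prop)
    (g : (Fin m → B) → A),
    Interp L L' A B D f ∧ Interp L' L B A E g ∧ Comp L A D f E g ∧ Comp L' B E g D f

/-- Relators: the metabelian law and the commutators along edges. -/
def rels {V : Type} (Γ : SimpleGraph V) : Set (FreeGroup V) :=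
  {r | ∃ x y z w : FreeGroup V, r = ⁅⁅x, y⁆, ⁅z, w⁆⁆} ∪
    {r | ∃ u v, Γ.Adj u v ∧ r = ⁅FreeGroup.of u, FreeGroup.of v⁆}

/-- The partially commutative metabelian group. -/
abbrev M {V : Type} (Γ : SimpleGraph V) : Type := PresentedGroup (rels Γ)

open Pool.Agent.H.MP_5cf697_lc PresentedGroup

theorem not_biInt {G : Type} [Group G] (mx : G × G →* G) (h2 : ∀ x, mx (x, x) = x)
    (h3 : ∀ x y z w, mx (mx (x, y), mx (z, w)) = mx (x, w)) (u v : ℕ → G)
    (hu : Injective fun n => mx (u n, 1)) (hv : Injective fun n => mx (1, v n)) :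
    ¬ BiInt LG LN G ℕ := by
  rintro ⟨n, m, D, f, E, g, ⟨-, fs, -, ha, -⟩, ⟨-, gs, -⟩, hc, -⟩
  let _ : Inhabited G := ⟨1⟩
  have rd : ∀ {ι : Type} {P : (ι → G) → Prop}, Df LG G P →
      Rows fun a b : ι → G => P fun i => mx (a i, b i) := fun h =>
    rows_def (mx := fun x y => mx (x, y)) (fun _ => inferInstanceAs (IsEmpty Empty))
      (fun _ f x y => by
        cases f
        exacts [map_one mx, map_inv mx (x 0, y 0), map_mul mx (x 0, y 0) (x 1, y 1)]) h2 h3 h
  let C : (Fin m → Fin n → G) → G → Prop := fun x y =>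
    (∀ i, D (x i)) ∧ E (fun i => f (x i)) ∧ g (fun i => f (x i)) = y
  let A : (Fin n → G) → (Fin n → G) → (Fin n → G) → Prop := fun x y z =>
    (∀ i, D (Option.elim i z ![x, y])) ∧ f x + f y = f z
  have r1 : Rows fun a b : G × (Fin m → Fin n → G) =>
      C (fun i j => mx (a.2 i j, b.2 i j)) (mx (a.1, b.1)) :=
    (rd hc).comp (fun (a : G × (Fin m → Fin n → G)) o => Option.elim o a.1 (uncurry a.2))
      fun (a : G × (Fin m → Fin n → G)) o => Option.elim o a.1 (uncurry a.2)
  have r2 : Rows fun a b : (Fin n → G) × (Fin n → G) × (Fin n → G) =>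
      A (fun j => mx (a.1 j, b.1 j)) (fun j => mx (a.2.1 j, b.2.1 j)) fun j => mx (a.2.2 j, b.2.2 j) := by
    convert (rd (ha 2 .add)).comp
      (fun (a : (Fin n → G) × (Fin n → G) × (Fin n → G)) o => Option.elim o.1 a.2.2 ![a.1, a.2.1] o.2)
      (fun (a : (Fin n → G) × (Fin n → G) × (Fin n → G)) o => Option.elim o.1 a.2.2 ![a.1, a.2.1] o.2)
      using 3 with a b
    refine and_congr (forall_congr' ?_) Iff.rfl
    rintro (_ | i)
    · rfl
    · fin_cases i <;> rfl
  have hA : ∀ x z, D x → D z → ((∃ y, A x y z) ↔ f x ≤ f z) := fun x z hx hz =>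
    ⟨fun ⟨y, _, e⟩ => by omega, fun h => by
      obtain ⟨y, hy, e⟩ := fs (f z - f x)
      refine ⟨y, ?_, by omega⟩
      rintro (_ | i)
      · exact hz
      · fin_cases i; exacts [hx, hy]⟩
  have cs : ∀ y, ∃ x, C x y := fun y => by
    obtain ⟨k, h1, rfl⟩ := gs y
    choose x hx e using fun i => fs (k i)
    obtain rfl := funext e
    exact ⟨x, hx, h1, rfl⟩
  refine no_order (mx := fun x y => mx (x, y))
    (R := fun y y' => ∀ x', C x' y' → ∃ x, C x y ∧ ∀ i, ∃ j, ∃ d, A (x i) d (x' j)) ?_ ?_ ?_ 1 u v hu hv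
  · let T := Fin m → Fin n → G
    have a1 := fun i j => (r2.comp
      (fun a : (((G × G) × T) × T) × (Fin n → G) => (a.1.2 i, a.2, a.1.1.2 j))
      (fun a : (((G × G) × T) × T) × (Fin n → G) => (a.1.2 i, a.2, a.1.1.2 j))).ex
    have a2 := ((r1.comp (fun a : ((G × G) × T) × T => (a.1.1.1, a.2))
      (fun a : ((G × G) × T) × T => (a.1.1.1, a.2))).and
        (rows_fall fun i => rows_fex fun j => a1 i j)).ex
    convert ((r1.comp (fun a : (G × G) × T => (a.1.2, a.2))
      (fun a : (G × G) × T => (a.1.2, a.2))).imp a2).all using 3 with a b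
    constructor
    · intro h x y hc
      obtain ⟨z, h1, h3⟩ := h _ hc
      refine ⟨z, z, by simpa [h2] using h1, fun i => ?_⟩
      obtain ⟨j, d, h4⟩ := h3 i
      exact ⟨j, d, d, by simpa [h2] using h4⟩
    · intro h x hc
      obtain ⟨z, z', h1, h3⟩ := h x x (by simpa [h2] using hc)
      refine ⟨_, h1, fun i => ?_⟩
      obtain ⟨j, d, d', h4⟩ := h3 i
      exact ⟨j, _, by simpa [h2] using h4⟩
  · intro y y'
    rw [or_iff_not_imp_left]
    intro h x hx
    push Not at h
    obtain ⟨x', h1, h2⟩ := h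
    obtain ⟨i, hi⟩ := h2 x hx
    refine ⟨x', h1, fun j => ⟨i, (hA _ _ (h1.1 j) (hx.1 i)).2 (le_of_not_ge fun h => ?_)⟩⟩
    obtain ⟨d, hd⟩ := (hA _ _ (hx.1 i) (h1.1 j)).2 h
    exact hi j d hd
  · intro y
    obtain ⟨x', h⟩ := cs y
    refine ((Set.finite_Iic fun _ : Fin m => ∑ j, f (x' j)).image g).subset fun y' hy => ?_
    obtain ⟨x, h1, h2⟩ := hy x' h
    refine ⟨_, fun i => ?_, h1.2.2⟩
    obtain ⟨j, hj⟩ := h2 i
    exact ((hA _ _ (h1.1 i) (h.1 j)).1 hj).trans
      (Finset.single_le_sum (f := fun j => f (x' j)) (fun _ _ => Nat.zero_le _) (Finset.mem_univ j))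

def Γ : SimpleGraph (Bool × Bool) := ⟨fun u v => u.1 ≠ v.1, ⟨fun _ _ => Ne.symm⟩, ⟨fun _ h => h rfl⟩⟩

theorem M_mb (x y z w : M Γ) : ⁅⁅x, y⁆, ⁅z, w⁆⁆ = 1 := by
  obtain ⟨x, rfl⟩ := mk_surjective _ x
  obtain ⟨y, rfl⟩ := mk_surjective _ y
  obtain ⟨z, rfl⟩ := mk_surjective _ z
  obtain ⟨w, rfl⟩ := mk_surjective _ w
  simpa using one_of_mem (rels := rels Γ) (Or.inl ⟨x, y, z, w, rfl⟩)

theorem M_adj {u v : Bool × Bool} (h : u.1 ≠ v.1) : Commute (of u : M Γ) (of v) :=
  commutatorElement_eq_one_iff_commute.1 (by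
    simpa [PresentedGroup.of] using one_of_mem (rels := rels Γ) (Or.inr ⟨u, v, h, rfl⟩))

def lf {H : Type} [Group H] (hm : ∀ x y z w : H, ⁅⁅x, y⁆, ⁅z, w⁆⁆ = 1) (t : Bool) (f : Bool → H) :
    M Γ →* H := toGroup (f := fun v => if v.1 = t then f v.2 else 1) (by
  rintro _ (⟨x, y, z, w, rfl⟩ | ⟨⟨u, _⟩, ⟨v, _⟩, h, rfl⟩)
  · simpa using hm _ _ _ _
  · cases t <;> cases u <;> cases v <;> first | exact absurd rfl h | simp)

theorem lf_of {H : Type} [Group H] (hm : ∀ x y z w : H, ⁅⁅x, y⁆, ⁅z, w⁆⁆ = 1) (t : Bool)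
    (f : Bool → H) (v : Bool × Bool) : lf hm t f (of v) = if v.1 = t then f v.2 else 1 :=
  toGroup.of _

def π (t : Bool) : M Γ →* M Γ := lf M_mb t fun s => of (t, s)

theorem π_mem (t : Bool) (x : M Γ) : π t x ∈ Subgroup.closure {of (t, true), of (t, false)} :=
  generated_by _ ((Subgroup.closure _).comap (π t)) (fun ⟨s, r⟩ => by
    rw [Subgroup.mem_comap, π, lf_of]
    split_ifs
    · cases r <;> exact Subgroup.subset_closure (by simp)
    · exact one_mem _) x

theorem π_comm (x y : M Γ) : Commute (π true x) (π false y) := by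
  refine Subgroup.closure_le_centralizer_centralizer _ (π_mem false y) _ ?_
  refine Subgroup.mem_centralizer_iff.2 fun s hs => ?_
  refine (Subgroup.closure_le_centralizer_centralizer _ (π_mem true x) s ?_)
  rcases hs with rfl | rfl <;> rintro _ (rfl | rfl) <;> exact M_adj (by simp)

def mx : M Γ × M Γ →* M Γ := (π true).noncommCoprod (π false) π_comm

theorem π_π (s t : Bool) (x : M Γ) : π s (π t x) = if s = t then π t x else 1 := by
  have : (π s).comp (π t) = if s = t then π t else 1 := ext fun ⟨a, b⟩ => by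
    cases s <;> cases t <;> cases a <;> simp [π, lf_of]
  rw [← MonoidHom.comp_apply, this]
  split_ifs <;> rfl

theorem mx_self (x : M Γ) : mx (x, x) = x :=
  DFunLike.congr_fun (ext (φ := mx.comp ((MonoidHom.id _).prod (.id _))) (ψ := .id _) fun ⟨a, b⟩ => by
    cases a <;> simp [mx, π, lf_of]) x

theorem of_inj (t : Bool) : Injective fun n : ℕ => (of (t, true) : M Γ) ^ n := fun n k e => by
  have := congrArg (fun x => (lf W_mb t (fun _ => α) x).g.1) e
  simpa [lf_of, ← zpow_natCast, zpow_g, α] using this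

theorem result : ∃ (V : Type) (_ : Finite V) (_ : Nonempty V) (Γ : SimpleGraph V),
    Subgroup.center (M Γ) = ⊥ ∧ ¬ BiInt LG LN (M Γ) ℕ := by
  refine ⟨_, inferInstance, inferInstance, Γ, eq_bot_iff.2 fun z hz => ?_,
    not_biInt mx mx_self (fun x y z w => by simp [mx, π_π]) (fun n => of (true, true) ^ n)
      (fun n => of (false, true) ^ n) ?_ ?_⟩
  · have : ∀ t, π t z = 1 := fun t => by
      have c : ∀ s, Commute (π t z) (of (t, s)) := fun s => by
        simpa [π, lf_of] using
          Commute.map (Subgroup.mem_center_iff.1 hz (of (t, s))).symm (π t)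
      exact center2 M_mb (lf W_mb t fun s => if s then α else β) (by simp [lf_of]) (by simp [lf_of])
        (π_mem t z) (c _) (c _)
    rw [Subgroup.mem_bot, ← mx_self z]
    simp [mx, this]
  · simpa [mx, π, lf_of] using of_inj true
  · simpa [mx, π, lf_of] using of_inj false

end Pool.Agent.Results.MP_5cf697_lc.No
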